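import Pool.Agent.Helper95.PN.Stmts
import Pool.Agent.Helper13.PM.HA3
import Pool.Agent.Helper67.PW.HA1

/-! The sharp Coulomb inequality in the variable of one electron. -/

set_option autoImplicit false

namespace Pool.Agent.Helper45.HY

open MeasureTheory Filter Topology Pool.Agent.Helper95.PW

/-- the square of the distance from `a` -/
noncomputable def ra {n : ℕ} (k : Fin n) (a : R3) (x : Cf n) : ℝ :=
  (x k 0 - a 0) ^ 2 + (x k 1 - a 1) ^ 2 + (x k 2 - a 2) ^ 2

theorem ra_nonneg {n : ℕ} (k : Fin n) (a : R3) (x : Cf n) : 0 ≤ ra k a x := by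
  unfold ra
  positivity

theorem nr_sqa {n : ℕ} (k : Fin n) (a : R3) (x : Cf n) : nr (x k - a) ^ 2 = ra k a x :=
  Real.sq_sqrt (ra_nonneg k a x)

theorem nr_eqa {n : ℕ} (k : Fin n) (a : R3) (x : Cf n) : nr (x k - a) = Real.sqrt (ra k a x) := rfl

theorem contDiff_ra {n : ℕ} (k : Fin n) (a : R3) :
    ContDiff ℝ (⊤ : ℕ∞) (fun x : Cf n => ra k a x) := by
  unfold ra
  fun_prop

/-- the field -/
noncomputable def fa {n : ℕ} (k : Fin n) (a : R3) (i : Fin 3) (e : ℝ) (x : Cf n) : ℝ :=
  (x k i - a i) / Real.sqrt (ra k a x + e)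

theorem contDiff_sq {n : ℕ} (k : Fin n) (a : R3) (e : ℝ) (he : 0 < e) :
    ContDiff ℝ (⊤ : ℕ∞) (fun x : Cf n => Real.sqrt (ra k a x + e)) := by
  apply ContDiff.sqrt
  · exact (contDiff_ra k a).add contDiff_const
  · intro x
    have := ra_nonneg k a x
    positivity

theorem contDiff_fa {n : ℕ} (k : Fin n) (a : R3) (i : Fin 3) (e : ℝ) (he : 0 < e) :
    ContDiff ℝ (⊤ : ℕ∞) (fa k a i e : Cf n → ℝ) := by
  unfold fa
  apply ContDiff.div
  · fun_prop
  · exact contDiff_sq k a e he
  · intro x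
    have := ra_nonneg k a x
    positivity

theorem dv_fa {n : ℕ} (k : Fin n) (a : R3) (i : Fin 3) (e : ℝ) (he : 0 < e) (x : Cf n) :
    dv k i (fa k a i e) x = 1 / Real.sqrt (ra k a x + e) -
      (x k i - a i) ^ 2 / Real.sqrt (ra k a x + e) ^ 3 := by
  have hpos : 0 < ra k a x + e := by
    have := ra_nonneg k a x
    positivity
  have hR : ra k a x + e ≠ 0 := hpos.ne'
  have hS : Real.sqrt (ra k a x + e) ≠ 0 := (Real.sqrt_pos.2 hpos).ne'
  have hSS : Real.sqrt (ra k a x + e) ^ 2 = ra k a x + e := Real.sq_sqrt hpos.le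
  have h1 : HasDerivAt (fun t : ℝ => fa k a i e (x + t • (Pi.single k (Pi.single i 1) : Cf n)))
      (dv k i (fa k a i e) x) 0 :=
    (((contDiff_fa k a i e he).differentiable (by simp)) x).hasFDerivAt.hasLineDerivAt _
  have hco : ∀ (j : Fin 3) (t : ℝ),
      (x + t • (Pi.single k (Pi.single i 1) : Cf n)) k j - a j =
        x k j - a j + t * (if j = i then 1 else 0) := by
    intro j t
    simp [Pi.single_apply]
    ring
  have hj : ∀ j : Fin 3, HasDerivAt
      (fun t : ℝ => x k j - a j + t * (if j = i then 1 else 0)) (if j = i then 1 else 0) 0 := by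
    intro j
    have h := ((hasDerivAt_id (0 : ℝ)).mul_const (if j = i then (1 : ℝ) else 0)).const_add
      (x k j - a j)
    rw [one_mul] at h
    exact h
  have hfun : (fun t : ℝ => fa k a i e (x + t • (Pi.single k (Pi.single i 1) : Cf n))) =
      fun t : ℝ => (x k i - a i + t * (if i = i then 1 else 0)) /
        Real.sqrt ((x k 0 - a 0 + t * (if 0 = i then 1 else 0)) ^ 2 +
          (x k 1 - a 1 + t * (if 1 = i then 1 else 0)) ^ 2 +
          (x k 2 - a 2 + t * (if 2 = i then 1 else 0)) ^ 2 + e) := by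
    funext t
    unfold fa ra
    rw [hco, hco, hco, hco]
  have h2 : HasDerivAt (fun t : ℝ => fa k a i e (x + t • (Pi.single k (Pi.single i 1) : Cf n)))
      (1 / Real.sqrt (ra k a x + e) -
      (x k i - a i) ^ 2 / Real.sqrt (ra k a x + e) ^ 3) 0 := by
    rw [hfun]
    have h3 : HasDerivAt (fun t : ℝ =>
        (x k 0 - a 0 + t * (if 0 = i then 1 else 0)) ^ 2 +
          (x k 1 - a 1 + t * (if 1 = i then 1 else 0)) ^ 2 +
          (x k 2 - a 2 + t * (if 2 = i then 1 else 0)) ^ 2 + e)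
        (2 * (x k i - a i)) 0 := by
      have h4 := ((((hj 0).fun_pow 2).fun_add ((hj 1).fun_pow 2)).fun_add
        ((hj 2).fun_pow 2)).add_const e
      refine h4.congr_deriv ?_
      simp only [zero_mul, add_zero]
      fin_cases i <;> simp
    have h6 := h3.sqrt (by
      simp only [zero_mul, add_zero]
      exact hR)
    have h4 := (hj i).fun_div h6 (by
      simp only [zero_mul, add_zero]
      exact hS)
    refine h4.congr_deriv ?_
    simp only [zero_mul, add_zero, if_true]
    have h5 : (x k 0 - a 0) ^ 2 + (x k 1 - a 1) ^ 2 + (x k 2 - a 2) ^ 2 = ra k a x := rfl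
    rw [h5]
    field_simp
  exact h1.unique h2

theorem coul_eps {n : ℕ} (k : Fin n) (a : R3) (v : Cf n → ℝ) (hv : ContDiff ℝ (⊤ : ℕ∞) v)
    (hc : HasCompactSupport v) (b e : ℝ) (hb : 0 ≤ b) (he : 0 < e) :
    Integrable (fun x : Cf n => v x ^ 2 / Real.sqrt (ra k a x + e)) ∧
    2 * b * ∫ x, v x ^ 2 / Real.sqrt (ra k a x + e) ≤
      (∫ x, ∑ i, dv k i v x ^ 2) + b ^ 2 * ∫ x, v x ^ 2 := by
  have hR : ∀ x : Cf n, 0 < ra k a x + e := by
    intro x
    have := ra_nonneg k a x
    positivity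
  have hcv : ∀ i, Continuous (fun x => dv k i v x) := fun i =>
    (hv.continuous_fderiv (by simp)).clm_apply continuous_const
  have hcf : ∀ i, Continuous (fun x => dv k i (fa k a i e) x) := fun i =>
    ((contDiff_fa k a i e he).continuous_fderiv (by simp)).clm_apply continuous_const
  have hcdv : ∀ i, HasCompactSupport (fun x => dv k i v x) := by
    intro i
    have h1 := hc.fderiv (𝕜 := ℝ)
    exact h1.comp_left (g := fun L : Cf n →L[ℝ] ℝ => L (Pi.single k (Pi.single i 1))) rfl
  have hintv : Integrable (fun x : Cf n => v x ^ 2) := by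
    have h1 : (fun x : Cf n => v x ^ 2) = fun x => v x * v x := by
      funext x
      ring
    rw [h1]
    exact (hv.continuous.mul hv.continuous).integrable_of_hasCompactSupport hc.mul_right
  have hint0 : Integrable (fun x : Cf n => v x ^ 2 / Real.sqrt (ra k a x + e)) := by
    apply Continuous.integrable_of_hasCompactSupport
    · apply Continuous.div (hv.continuous.pow 2) (contDiff_sq k a e he).continuous
      intro x
      exact (Real.sqrt_pos.2 (hR x)).ne'
    · have h1 : (fun x : Cf n => v x ^ 2 / Real.sqrt (ra k a x + e)) =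
          fun x => v x * (v x / Real.sqrt (ra k a x + e)) := by
        funext x
        ring
      rw [h1]
      exact hc.mul_right
  have hint1 : ∀ i, Integrable (fun x => (v x * v x) * dv k i (fa k a i e) x) := by
    intro i
    apply Continuous.integrable_of_hasCompactSupport
    · exact (hv.continuous.mul hv.continuous).mul (hcf i)
    · exact (hc.mul_right).mul_right
  have hint2 : ∀ i, Integrable (fun x => (2 * v x * dv k i v x) * fa k a i e x) := by
    intro i
    apply Continuous.integrable_of_hasCompactSupport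
    · exact ((continuous_const.mul hv.continuous).mul (hcv i)).mul
        (contDiff_fa k a i e he).continuous
    · exact ((hc.mul_left (f := fun _ => (2 : ℝ))).mul_right).mul_right
  have hint3 : Integrable (fun x => ∑ i, dv k i v x ^ 2) := by
    apply integrable_finsetSum
    intro i _
    apply Continuous.integrable_of_hasCompactSupport
    · exact (hcv i).pow 2
    · have h1 : (fun x => dv k i v x ^ 2) = fun x => dv k i v x * dv k i v x := by
        funext x
        ring
      rw [h1]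
      exact (hcdv i).mul_right
  refine ⟨hint0, ?_⟩
  have hadd : ∀ i, Integrable (fun x => (v x * v x) * dv k i (fa k a i e) x +
      (2 * v x * dv k i v x) * fa k a i e x) := fun i => (hint1 i).add (hint2 i)
  have hS : ∫ x, ∑ i, ((v x * v x) * dv k i (fa k a i e) x +
      (2 * v x * dv k i v x) * fa k a i e x) = 0 := by
    rw [integral_finsetSum _ (fun i _ => hadd i)]
    apply Finset.sum_eq_zero
    intro i _
    rw [integral_add (hint1 i) (hint2 i),
      Pool.Agent.Helper67.PW.ibp k i v (fa k a i e) hv hc (contDiff_fa k a i e he)]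
    ring
  have hSi : Integrable (fun x => ∑ i, ((v x * v x) * dv k i (fa k a i e) x +
      (2 * v x * dv k i v x) * fa k a i e x)) :=
    integrable_finsetSum _ (fun i _ => hadd i)
  have hpt : ∀ x, (2 * b) * (v x ^ 2 / Real.sqrt (ra k a x + e)) ≤
      b * (∑ i, ((v x * v x) * dv k i (fa k a i e) x + (2 * v x * dv k i v x) * fa k a i e x)) +
        ((∑ i, dv k i v x ^ 2) + b ^ 2 * v x ^ 2) := by
    intro x
    simp only [dv_fa k a _ e he, fa, Fin.sum_univ_three]
    have hr : ra k a x = (x k 0 - a 0) ^ 2 + (x k 1 - a 1) ^ 2 + (x k 2 - a 2) ^ 2 := rfl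
    have hRx := hR x
    have hSx : 0 < Real.sqrt (ra k a x + e) := Real.sqrt_pos.2 hRx
    have hSS : Real.sqrt (ra k a x + e) ^ 2 = ra k a x + e := Real.sq_sqrt hRx.le
    have hle : ra k a x ≤ Real.sqrt (ra k a x + e) ^ 2 := by rw [hSS]; linarith
    generalize Real.sqrt (ra k a x + e) = S at hSx hSS hle ⊢
    generalize dv k 0 v x = d0
    generalize dv k 1 v x = d1
    generalize dv k 2 v x = d2
    rw [hr] at hle
    generalize x k 0 - a 0 = a0 at hle ⊢
    generalize x k 1 - a 1 = a1 at hle ⊢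
    generalize x k 2 - a 2 = a2 at hle ⊢
    generalize v x = w
    have heq : b * (w * w * (1 / S - a0 ^ 2 / S ^ 3) + 2 * w * d0 * (a0 / S) +
        (w * w * (1 / S - a1 ^ 2 / S ^ 3) + 2 * w * d1 * (a1 / S)) +
        (w * w * (1 / S - a2 ^ 2 / S ^ 3) + 2 * w * d2 * (a2 / S))) +
        ((d0 ^ 2 + d1 ^ 2 + d2 ^ 2) + b ^ 2 * w ^ 2) - (2 * b) * (w ^ 2 / S) =
        ((d0 + b * w * (a0 / S)) ^ 2 + (d1 + b * w * (a1 / S)) ^ 2 +
          (d2 + b * w * (a2 / S)) ^ 2) +
        (b * w ^ 2 / S ^ 3 + b ^ 2 * w ^ 2 / S ^ 2) * (S ^ 2 - (a0 ^ 2 + a1 ^ 2 + a2 ^ 2)) := by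
      field_simp
      ring
    have h1 : 0 ≤ (b * w ^ 2 / S ^ 3 + b ^ 2 * w ^ 2 / S ^ 2) *
        (S ^ 2 - (a0 ^ 2 + a1 ^ 2 + a2 ^ 2)) :=
      mul_nonneg (by positivity) (by linarith)
    have h2 : 0 ≤ (d0 + b * w * (a0 / S)) ^ 2 + (d1 + b * w * (a1 / S)) ^ 2 +
          (d2 + b * w * (a2 / S)) ^ 2 := by positivity
    linarith
  have h34 : Integrable (fun x => (∑ i, dv k i v x ^ 2) + b ^ 2 * v x ^ 2) :=
    hint3.add (hintv.const_mul (b ^ 2))
  have hmono := integral_mono (hint0.const_mul (2 * b)) ((hSi.const_mul b).add h34) hpt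
  have g1 : ∫ x, (2 * b) * (v x ^ 2 / Real.sqrt (ra k a x + e)) =
      (2 * b) * ∫ x, v x ^ 2 / Real.sqrt (ra k a x + e) := integral_const_mul _ _
  have g2 : ∫ x, (b * (∑ i, ((v x * v x) * dv k i (fa k a i e) x +
      (2 * v x * dv k i v x) * fa k a i e x)) + ((∑ i, dv k i v x ^ 2) + b ^ 2 * v x ^ 2)) =
      (∫ x, b * (∑ i, ((v x * v x) * dv k i (fa k a i e) x +
      (2 * v x * dv k i v x) * fa k a i e x))) + ∫ x, ((∑ i, dv k i v x ^ 2) + b ^ 2 * v x ^ 2) :=
    integral_add (hSi.const_mul b) h34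
  have g3 : ∫ x, b * (∑ i, ((v x * v x) * dv k i (fa k a i e) x +
      (2 * v x * dv k i v x) * fa k a i e x)) = 0 := by
    rw [integral_const_mul, hS, mul_zero]
  have g4 : ∫ x, ((∑ i, dv k i v x ^ 2) + b ^ 2 * v x ^ 2) =
      (∫ x, ∑ i, dv k i v x ^ 2) + b ^ 2 * ∫ x, v x ^ 2 := by
    rw [← integral_const_mul]
    exact integral_add hint3 (hintv.const_mul (b ^ 2))
  have hm : ∫ x, (2 * b) * (v x ^ 2 / Real.sqrt (ra k a x + e)) ≤
      ∫ x, (b * (∑ i, ((v x * v x) * dv k i (fa k a i e) x +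
      (2 * v x * dv k i v x) * fa k a i e x)) + ((∑ i, dv k i v x ^ 2) + b ^ 2 * v x ^ 2)) :=
    hmono
  rw [g1, g2, g3, g4, zero_add] at hm
  exact hm

/-- the sharp Coulomb inequality -/
theorem coul {n : ℕ} (k : Fin n) (a : R3) (v : Cf n → ℝ) (hv : ContDiff ℝ (⊤ : ℕ∞) v)
    (hc : HasCompactSupport v) (b : ℝ) (hb : 0 ≤ b) :
    Integrable (fun x : Cf n => v x ^ 2 / nr (x k - a)) ∧
    2 * b * ∫ x, v x ^ 2 / nr (x k - a) ≤
      (∫ x, ∑ i, dv k i v x ^ 2) + b ^ 2 * ∫ x, v x ^ 2 := by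
  have hnn : ∀ x : Cf n, 0 ≤ v x ^ 2 / nr (x k - a) := fun x =>
    div_nonneg (sq_nonneg _) (Real.sqrt_nonneg _)
  have hmeas : Measurable (fun x : Cf n => v x ^ 2 / nr (x k - a)) := by
    simp only [nr_eqa]
    exact (hv.continuous.measurable.pow_const 2).div
      ((contDiff_ra k a).continuous.sqrt).measurable
  have hintv : Integrable (fun x : Cf n => v x ^ 2) := by
    have h1 : (fun x : Cf n => v x ^ 2) = fun x => v x * v x := by
      funext x
      ring
    rw [h1]
    exact (hv.continuous.mul hv.continuous).integrable_of_hasCompactSupport hc.mul_right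
  have hint : Integrable (fun x : Cf n => v x ^ 2 / nr (x k - a)) := by
    refine ((hintv.add (st_HA3 n k a v hv hc).1).mono' hmeas.aestronglyMeasurable ?_)
    refine ae_of_all _ fun x => ?_
    rw [Real.norm_of_nonneg (hnn x)]
    simp only [Pi.add_apply]
    have h0 : 0 ≤ nr (x k - a) := Real.sqrt_nonneg _
    rcases h0.eq_or_lt with h1 | h1
    · rw [← h1]
      simp
      positivity
    · have e1 : v x ^ 2 + v x ^ 2 / nr (x k - a) ^ 2 - v x ^ 2 / nr (x k - a) =
          v x ^ 2 * ((1 - 1 / nr (x k - a) / 2) ^ 2 + 3 / 4 * (1 / nr (x k - a)) ^ 2) := by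
        field_simp
        ring
      have e2 : 0 ≤ v x ^ 2 * ((1 - 1 / nr (x k - a) / 2) ^ 2 + 3 / 4 * (1 / nr (x k - a)) ^ 2) := by
        positivity
      linarith
  refine ⟨hint, ?_⟩
  have hae : ∀ᵐ x : Cf n, 0 < ra k a x := by
    have h0 : (volume : Measure (Cf n)) {f | f k = a} = 0 :=
      Measure.pi_hyperplane (fun _ : Fin n => (volume : Measure R3)) k a
    have h1 : ∀ᵐ x : Cf n, x k ≠ a := by
      rw [ae_iff]
      simpa using h0
    filter_upwards [h1] with x hx
    refine lt_of_le_of_ne (ra_nonneg k a x) fun h2 => hx ?_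
    unfold ra at h2
    have p0 := sq_nonneg (x k 0 - a 0)
    have p1 := sq_nonneg (x k 1 - a 1)
    have p2 := sq_nonneg (x k 2 - a 2)
    have q0 : x k 0 - a 0 = 0 := pow_eq_zero_iff (two_ne_zero) |>.1 (by linarith)
    have q1 : x k 1 - a 1 = 0 := pow_eq_zero_iff (two_ne_zero) |>.1 (by linarith)
    have q2 : x k 2 - a 2 = 0 := pow_eq_zero_iff (two_ne_zero) |>.1 (by linarith)
    funext i
    fin_cases i
    · exact sub_eq_zero.1 q0
    · exact sub_eq_zero.1 q1
    · exact sub_eq_zero.1 q2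
  have hlim : Tendsto (fun j : ℕ => ∫ x, v x ^ 2 / Real.sqrt (ra k a x + 1 / ((j : ℝ) + 1)))
      atTop (nhds (∫ x, v x ^ 2 / nr (x k - a))) := by
    apply tendsto_integral_of_dominated_convergence (fun x => v x ^ 2 / nr (x k - a))
    · intro j
      have he : 0 < 1 / ((j : ℝ) + 1) := by positivity
      exact (coul_eps k a v hv hc b _ hb he).1.aestronglyMeasurable
    · exact hint
    · intro j
      filter_upwards [hae] with x h1
      have he : 0 < 1 / ((j : ℝ) + 1) := by positivity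
      rw [Real.norm_of_nonneg (div_nonneg (sq_nonneg _) (Real.sqrt_nonneg _)), nr_eqa]
      exact div_le_div_of_nonneg_left (sq_nonneg _) (Real.sqrt_pos.2 h1)
          (Real.sqrt_le_sqrt (by linarith))
    · filter_upwards [hae] with x h1
      rw [nr_eqa]
      have h5 := (tendsto_one_div_add_atTop_nhds_zero_nat (𝕜 := ℝ)).const_add (ra k a x)
      rw [add_zero] at h5
      exact Tendsto.div tendsto_const_nhds ((Real.continuous_sqrt.tendsto _).comp h5)
        (Real.sqrt_pos.2 h1).ne'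
  have hle : ∀ j : ℕ, 2 * b * ∫ x, v x ^ 2 / Real.sqrt (ra k a x + 1 / ((j : ℝ) + 1)) ≤
      (∫ x, ∑ i, dv k i v x ^ 2) + b ^ 2 * ∫ x, v x ^ 2 := fun j =>
    (coul_eps k a v hv hc b _ hb (by positivity)).2
  exact le_of_tendsto' (hlim.const_mul (2 * b)) hle

end Pool.Agent.Helper45.HY
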