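import Pool.Agent.Helper50.HY.Stmts
import Pool.Agent.Helper45.HY.Coul

/-! Row HAC. -/

set_option autoImplicit false

namespace Pool.Agent.Helper45.HY

open MeasureTheory Filter Pool.Agent.Helper95 Pool.Agent.Helper95.PW Pool.Agent.Helper95.LN

theorem HAC : Pool.Agent.Helper50.HY.ST_HAC := by
  intro n k a v l hv hc hl
  obtain ⟨h1, h2⟩ := coul k a v hv hc (l / 2) (by positivity)
  refine ⟨h1, ?_⟩
  have e1 : 2 * (l / 2) = l := by ring
  have e2 : (l / 2) ^ 2 = l ^ 2 / 4 := by ring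
  rw [e1, e2] at h2
  exact h2

end Pool.Agent.Helper45.HY
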